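import Mathlib

namespace Pool.Agent.P.MP_d5661c_co

open Polynomial Finset

section abstract

variable {R : Type*} [CommRing R] (ν : AbsoluteValue R ℝ)

lemma na_sum_le (hna : IsNonarchimedean ν) {ι : Type*} (s : Finset ι) (f : ι → R) (r : ℝ)
    (hr : 0 ≤ r) (h : ∀ i ∈ s, ν (f i) ≤ r) : ν (∑ i ∈ s, f i) ≤ r := by
  classical
  induction s using Finset.induction_on with
  | empty => simpa using hr
  | insert a s ha ih =>
    rw [Finset.sum_insert ha]
    refine (hna _ _).trans (max_le (h a (Finset.mem_insert_self _ _)) (ih ?_))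
    intro i hi
    exact h i (Finset.mem_insert_of_mem hi)

lemma na_add_le (hna : IsNonarchimedean ν) {a b : R} {r : ℝ} (ha : ν a ≤ r) (hb : ν b ≤ r) :
    ν (a + b) ≤ r := (hna _ _).trans (max_le ha hb)

lemma na_sub_le (hna : IsNonarchimedean ν) {a b : R} {r : ℝ} (ha : ν a ≤ r) (hb : ν b ≤ r) :
    ν (a - b) ≤ r := by
  rw [sub_eq_add_neg]
  exact na_add_le ν hna ha (by simpa using hb)

lemma na_prod_le {ι : Type*} (s : Finset ι) (f : ι → R) (r : ℝ)
    (h : ∀ i ∈ s, ν (f i) ≤ r) [IsDomain R] : ν (∏ i ∈ s, f i) ≤ r ^ s.card := by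
  rw [map_prod]
  calc ∏ i ∈ s, ν (f i) ≤ ∏ _i ∈ s, r := Finset.prod_le_prod (fun i _ => ν.nonneg _) h
    _ = r ^ s.card := by simp

lemma na_prod_sub_prod [IsDomain R] (hna : IsNonarchimedean ν) {ι : Type*} (s : Finset ι)
    (f g : ι → R) (r t : ℝ) (hr : 0 ≤ r) (ht : 0 ≤ t) (hf : ∀ i ∈ s, ν (f i) ≤ r)
    (hg : ∀ i ∈ s, ν (g i) ≤ r) (hfg : ∀ i ∈ s, ν (f i - g i) ≤ t * r) :
    ν (∏ i ∈ s, f i - ∏ i ∈ s, g i) ≤ t * r ^ s.card := by
  classical
  induction s using Finset.induction_on with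
  | empty => simpa using ht
  | insert a s ha ih =>
    rw [Finset.prod_insert ha, Finset.prod_insert ha, Finset.card_insert_of_notMem ha]
    have e : f a * ∏ i ∈ s, f i - g a * ∏ i ∈ s, g i
        = f a * (∏ i ∈ s, f i - ∏ i ∈ s, g i) + (f a - g a) * ∏ i ∈ s, g i := by ring
    rw [e]
    have h1 := ih (fun i hi => hf i (Finset.mem_insert_of_mem hi))
      (fun i hi => hg i (Finset.mem_insert_of_mem hi))
      (fun i hi => hfg i (Finset.mem_insert_of_mem hi))
    have h2 := na_prod_le ν s g r (fun i hi => hg i (Finset.mem_insert_of_mem hi))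
    have h3 := hf a (Finset.mem_insert_self _ _)
    have h4 := hfg a (Finset.mem_insert_self _ _)
    refine na_add_le ν hna ?_ ?_
    · rw [map_mul]
      calc _ ≤ r * (t * r ^ s.card) := mul_le_mul h3 h1 (ν.nonneg _) hr
        _ = _ := by ring
    · rw [map_mul]
      calc _ ≤ (t * r) * r ^ s.card := mul_le_mul h4 h2 (ν.nonneg _) (mul_nonneg ht hr)
        _ = _ := by ring

lemma na_det_sub_det [IsDomain R] (hna : IsNonarchimedean ν) {ι : Type*} [Fintype ι]
    [DecidableEq ι] (A B : Matrix ι ι R) (r t : ℝ) (hr : 0 ≤ r) (ht : 0 ≤ t)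
    (hA : ∀ i j, ν (A i j) ≤ r) (hB : ∀ i j, ν (B i j) ≤ r)
    (hAB : ∀ i j, ν (A i j - B i j) ≤ t * r) :
    ν (A.det - B.det) ≤ t * r ^ Fintype.card ι := by
  rw [Matrix.det_apply', Matrix.det_apply', ← Finset.sum_sub_distrib]
  refine na_sum_le ν hna _ _ _ (by positivity) ?_
  intro σ _
  rw [← mul_sub, map_mul]
  have h1 : ν (((Equiv.Perm.sign σ : ℤˣ) : ℤ) : R) = 1 := by
    rcases Int.units_eq_one_or (Equiv.Perm.sign σ) with h | h <;> simp [h]
  rw [h1, one_mul]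
  exact na_prod_sub_prod ν hna _ _ _ r t hr ht (fun i _ => hA _ _) (fun i _ => hB _ _)
    (fun i _ => hAB _ _)

lemma na_eq_of_sub_lt (hna : IsNonarchimedean ν) {a b : R} (h : ν (a - b) < ν b) :
    ν a = ν b := by
  apply le_antisymm
  · have : a = (a - b) + b := by ring
    rw [this]
    exact na_add_le ν hna h.le (by simp)
  · by_contra hlt
    push Not at hlt
    have e : b = a - (a - b) := by ring
    have h2 : ν b ≤ max (ν a) (ν (a - b)) := by
      conv_lhs => rw [e]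
      exact na_sub_le ν hna (le_max_left _ _) (le_max_right _ _)
    exact absurd h2 (not_le.mpr (max_lt hlt h))

end abstract

section gauss

variable (p : ℕ) [Fact p.Prime]

lemma padic_na : IsNonarchimedean (Rat.AbsoluteValue.padic p) := by
  intro a b
  simp only [Rat.AbsoluteValue.padic_eq_padicNorm]
  exact_mod_cast padicNorm.nonarchimedean (p := p) (q := a) (r := b)

/-- The Gauss norm with radius `c` over the `p`-adic absolute value, as an absolute value. -/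
noncomputable def gn (c : ℝ) (hc : 0 < c) : AbsoluteValue ℚ[X] ℝ :=
  @IsAbsoluteValue.toAbsoluteValue _ _ _ _ _ (gaussNorm (Rat.AbsoluteValue.padic p) c)
    (gaussNorm_isAbsoluteValue (padic_na p) hc)

lemma gn_apply (c : ℝ) (hc : 0 < c) (f : ℚ[X]) :
    gn p c hc f = f.gaussNorm (Rat.AbsoluteValue.padic p) c := rfl

lemma gn_na (c : ℝ) (hc : 0 < c) : IsNonarchimedean (gn p c hc) :=
  isNonarchimedean_gaussNorm (Rat.AbsoluteValue.padic p) (padic_na p) hc.le

lemma gn_C (c : ℝ) (hc : 0 < c) (a : ℚ) : gn p c hc (C a) = (padicNorm p a : ℝ) := by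
  rw [gn_apply, gaussNorm_C]; rfl

lemma gn_X (c : ℝ) (hc : 0 < c) : gn p c hc X = c := by
  rw [gn_apply, ← monomial_one_one_eq_X, gaussNorm_monomial]; simp

lemma gn_natCast (c : ℝ) (hc : 0 < c) (a : ℕ) :
    gn p c hc (a : ℚ[X]) = (padicNorm p (a : ℚ) : ℝ) := by
  rw [← gn_C p c hc]; simp

lemma gn_intCast (c : ℝ) (hc : 0 < c) (a : ℤ) :
    gn p c hc (a : ℚ[X]) = (padicNorm p (a : ℚ) : ℝ) := by
  rw [← gn_C p c hc]; simp

lemma gn_le_of_coeff (c : ℝ) (hc : 0 < c) (f : ℚ[X]) (r : ℝ)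
    (h : ∀ i, (padicNorm p (f.coeff i) : ℝ) * c ^ i ≤ r) : gn p c hc f ≤ r := by
  obtain ⟨i, hi⟩ := exists_eq_gaussNorm (Rat.AbsoluteValue.padic p) c f
  rw [gn_apply, hi]
  exact h i

lemma coeff_le_gn (c : ℝ) (hc : 0 < c) (f : ℚ[X]) (i : ℕ) :
    (padicNorm p (f.coeff i) : ℝ) * c ^ i ≤ gn p c hc f :=
  le_gaussNorm (Rat.AbsoluteValue.padic p) f hc.le i

lemma coeff_comp_neg_X (f : ℚ[X]) (i : ℕ) : (f.comp (-X)).coeff i = f.coeff i * (-1) ^ i := by
  have : (-X : ℚ[X]) = C (-1) * X := by simp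
  rw [this, comp_C_mul_X_coeff]

lemma gn_comp_neg_X (c : ℝ) (hc : 0 < c) (f : ℚ[X]) : gn p c hc (f.comp (-X)) = gn p c hc f := by
  have key : ∀ i, padicNorm p ((f.comp (-X)).coeff i) = padicNorm p (f.coeff i) := by
    intro i
    rw [coeff_comp_neg_X]
    rcases neg_one_pow_eq_or ℚ i with h | h <;> simp [h]
  apply le_antisymm
  · refine gn_le_of_coeff p c hc _ _ fun i => ?_
    rw [key]; exact coeff_le_gn p c hc f i
  · refine gn_le_of_coeff p c hc _ _ fun i => ?_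
    rw [← key]; exact coeff_le_gn p c hc _ i

/-- If `c ^ m = 1 / p`, every nonzero value of the Gauss norm is an integer power of `c`. -/
lemma gn_value (c : ℝ) (hc : 0 < c) (m : ℕ) (hm : c ^ m = (p : ℝ)⁻¹) (f : ℚ[X])
    (hf : gn p c hc f ≠ 0) : ∃ k : ℤ, gn p c hc f = c ^ k := by
  obtain ⟨i, hi⟩ := exists_eq_gaussNorm (Rat.AbsoluteValue.padic p) c f
  rw [gn_apply, hi] at hf ⊢
  have h0 : f.coeff i ≠ 0 := by
    intro h; simp [h] at hf
  refine ⟨m * padicValRat p (f.coeff i) + i, ?_⟩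
  rw [Rat.AbsoluteValue.padic_eq_padicNorm, padicNorm.eq_zpow_of_nonzero h0, zpow_add₀ hc.ne',
    zpow_mul, zpow_natCast, zpow_natCast, hm]
  push_cast
  rw [inv_zpow']

end gauss

end Pool.Agent.P.MP_d5661c_co
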