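import Mathlib
import Pool.Agent.P.MP_d5661c_co.Norm

namespace Pool.Agent.P.MP_d5661c_co

open Polynomial Finset

variable (p : ℕ) [hp : Fact p.Prime]

lemma padicNorm_nat_le_of_dvd (k a : ℕ) (h : p ^ k ∣ a) :
    (padicNorm p (a : ℚ) : ℝ) ≤ ((p : ℝ)⁻¹) ^ k := by
  have h1 : padicNorm p ((a : ℤ) : ℚ) ≤ (p : ℚ) ^ (-k : ℤ) :=
    padicNorm.dvd_iff_norm_le.mp (by exact_mod_cast h)
  have h2 : ((padicNorm p ((a : ℤ) : ℚ) : ℚ) : ℝ) ≤ (((p : ℚ) ^ (-k : ℤ) : ℚ) : ℝ) := by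
    exact_mod_cast h1
  simpa [inv_pow] using h2

lemma padicNorm_choose_mid (b : ℕ) :
    (padicNorm p (((p ^ (b + 1)).choose (p ^ b) : ℕ) : ℚ) : ℝ) = (p : ℝ)⁻¹ := by
  have hpp := hp.out
  have hle : p ^ b ≤ p ^ (b + 1) := Nat.pow_le_pow_right hpp.pos (Nat.le_succ _)
  have h0 : p ^ b ≠ 0 := pow_ne_zero _ hpp.ne_zero
  have h1 := hpp.emultiplicity_choose_prime_pow hle h0
  have h2 : multiplicity p (p ^ b) = b :=
    multiplicity_pow_self hpp.ne_zero (by simpa [Nat.isUnit_iff] using hpp.ne_one) b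
  rw [h2, Nat.add_sub_cancel_left] at h1
  have hpos : (p ^ (b + 1)).choose (p ^ b) ≠ 0 := (Nat.choose_pos hle).ne'
  have h3 : padicValNat p ((p ^ (b + 1)).choose (p ^ b)) = 1 := by
    rw [padicValNat_def hpos]
    exact multiplicity_eq_of_emultiplicity_eq_some h1
  rw [padicNorm.eq_zpow_of_nonzero (by exact_mod_cast hpos), padicValRat.of_nat, h3]
  simp

lemma sq_dvd_choose (b k : ℕ) (hk0 : k ≠ 0) (hk : k < p ^ (b + 1)) :
    p ^ 2 ∣ (p ^ (b + 2)).choose k := by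
  have hpp := hp.out
  have hle : k ≤ p ^ (b + 2) :=
    hk.le.trans (Nat.pow_le_pow_right hpp.pos (Nat.le_succ _))
  have h1 := hpp.emultiplicity_choose_prime_pow hle hk0
  have h2 : multiplicity p k ≤ b := by
    by_contra h
    push Not at h
    have : p ^ (b + 1) ∣ k := (pow_dvd_pow p h).trans (pow_multiplicity_dvd p k)
    exact absurd (Nat.le_of_dvd (Nat.pos_of_ne_zero hk0) this) (not_le.mpr hk)
  rw [pow_dvd_iff_le_emultiplicity, h1]
  exact_mod_cast (by omega : 2 ≤ b + 2 - multiplicity p k)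

lemma coeff_diff (q k : ℕ) :
    ((1 + X : ℚ[X]) ^ q - (1 - X) ^ q).coeff k = (q.choose k : ℚ) * (1 - (-1) ^ k) := by
  have h : (1 - X : ℚ[X]) ^ q = ((1 + X : ℚ[X]) ^ q).comp (-X) := by
    simp [sub_eq_add_neg]
  rw [coeff_sub, h, coeff_comp_neg_X, coeff_one_add_X_pow]
  ring

/-- The Gauss norm of `(1 + X) ^ q - (1 - X) ^ q` for `q = p ^ (b + 2)` at radius `c`,
`c ^ (p ^ (b + 1)) = 1 / p`. -/
lemma gn_diff (hp2 : p ≠ 2) (b : ℕ) (c : ℝ) (hc : 0 < c) (hc1 : c ≤ 1)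
    (hm : c ^ (p ^ (b + 1)) = (p : ℝ)⁻¹) :
    gn p c hc ((1 + X) ^ (p ^ (b + 2)) - (1 - X) ^ (p ^ (b + 2))) = c ^ (2 * p ^ (b + 1)) := by
  have hpp := hp.out
  have hodd : Odd p := hpp.odd_of_ne_two hp2
  have h2 : padicNorm p (2 : ℚ) = 1 := by
    have : padicNorm p ((2 : ℕ) : ℚ) = 1 := by
      rw [padicNorm.nat_eq_one_iff]
      intro h
      exact hp2 ((Nat.prime_dvd_prime_iff_eq hpp Nat.prime_two).mp h)
    simpa using this
  have hc2 : c ^ (2 * p ^ (b + 1)) = ((p : ℝ)⁻¹) ^ 2 := by rw [mul_comm, pow_mul, hm]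
  apply le_antisymm
  · refine gn_le_of_coeff p c hc _ _ fun k => ?_
    rw [coeff_diff]
    rcases neg_one_pow_eq_or ℚ k with h | h
    · simp [h]; positivity
    have hk0 : k ≠ 0 := by
      rintro rfl
      norm_num at h
    rw [h, padicNorm.mul]
    have e : (1 - (-1) : ℚ) = 2 := by norm_num
    rw [e, h2, mul_one]
    by_cases hk1 : k < p ^ (b + 1)
    · have h3 := padicNorm_nat_le_of_dvd p 2 _ (sq_dvd_choose p b k hk0 hk1)
      rw [hc2]
      calc _ ≤ ((p : ℝ)⁻¹) ^ 2 * 1 :=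
            mul_le_mul h3 (pow_le_one₀ hc.le hc1) (by positivity) (by positivity)
        _ = _ := mul_one _
    push Not at hk1
    by_cases hk2 : k = p ^ (b + 2)
    · have h3 := padicNorm_nat_le_of_dvd p 0 ((p ^ (b + 2)).choose k) (by simp)
      have h4 : 2 * p ^ (b + 1) ≤ k := by
        rw [hk2, pow_succ p (b + 1), mul_comm]
        exact Nat.mul_le_mul_left _ hpp.two_le
      calc _ ≤ ((p : ℝ)⁻¹) ^ 0 * c ^ (2 * p ^ (b + 1)) :=
            mul_le_mul h3 (pow_le_pow_of_le_one hc.le hc1 h4) (by positivity) (by positivity)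
        _ = _ := by simp
    · have h3 := padicNorm_nat_le_of_dvd p 1 ((p ^ (b + 2)).choose k)
        (by simpa using hpp.dvd_choose_pow hk0 hk2)
      calc _ ≤ ((p : ℝ)⁻¹) ^ 1 * c ^ (p ^ (b + 1)) :=
            mul_le_mul h3 (pow_le_pow_of_le_one hc.le hc1 hk1) (by positivity) (by positivity)
        _ = _ := by rw [hc2, hm]; ring
  · have h := coeff_le_gn p c hc ((1 + X) ^ (p ^ (b + 2)) - (1 - X) ^ (p ^ (b + 2))) (p ^ (b + 1))
    rw [coeff_diff, (hodd.pow).neg_one_pow, padicNorm.mul] at h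
    have e : (1 - (-1) : ℚ) = 2 := by norm_num
    rw [e, h2, mul_one, padicNorm_choose_mid, hm] at h
    rw [hc2, sq]
    exact h

lemma sum_zmod_val {M : Type*} [AddCommMonoid M] (q : ℕ) [NeZero q] (f : ℕ → M) :
    ∑ g : ZMod q, f g.val = ∑ i ∈ range q, f i := by
  refine Finset.sum_bij (fun g _ => g.val) (fun g _ => mem_range.mpr (ZMod.val_lt g))
    (fun a _ b _ h => ZMod.val_injective q h) (fun i hi => ?_) (fun _ _ => rfl)
  exact ⟨(i : ZMod q), mem_univ _, ZMod.val_cast_of_lt (mem_range.mp hi)⟩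

lemma term_eq {R : Type*} [CommRing R] (u w : R) (q : ℕ) [NeZero q] (a a' : ZMod q) :
    ∃ e : R, (e = 0 ∨ e = 1) ∧
      u ^ a.val * w ^ (q - a.val) * (w ^ a'.val * u ^ (q - a'.val))
        = w ^ q * (u ^ (a - a').val * w ^ (q - (a - a').val))
          + e * ((u ^ q - w ^ q) * (u ^ (a - a').val * w ^ (q - (a - a').val))) := by
  have ha := ZMod.val_lt a
  have ha' := ZMod.val_lt a'
  by_cases h : a'.val ≤ a.val
  · refine ⟨1, Or.inr rfl, ?_⟩
    rw [ZMod.val_sub h]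
    obtain ⟨d, hd⟩ := Nat.exists_eq_add_of_le h
    obtain ⟨e, he⟩ := Nat.exists_eq_add_of_le ha.le
    have e1 : q - a.val = e := by omega
    have e2 : q - a'.val = d + e := by omega
    have e3 : a.val - a'.val = d := by omega
    have e4 : q - d = a'.val + e := by omega
    rw [e1, e2, e3, e4]
    generalize a'.val = x at *
    rw [hd, he, hd]
    ring
  · push Not at h
    refine ⟨0, Or.inl rfl, ?_⟩
    have hv : (a - a').val = a.val + q - a'.val := by
      have h1 : a - a' = ((a.val + q - a'.val : ℕ) : ZMod q) := by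
        rw [Nat.cast_sub (by omega)]
        simp
      rw [h1, ZMod.val_cast_of_lt (by omega)]
    rw [hv]
    obtain ⟨d, hd⟩ := Nat.exists_eq_add_of_le h.le
    obtain ⟨e, he⟩ := Nat.exists_eq_add_of_le ha'.le
    have e1 : q - a.val = d + e := by omega
    have e2 : q - a'.val = e := by omega
    have e3 : a.val + q - a'.val = a.val + e := by omega
    have e4 : q - (a.val + e) = d := by omega
    rw [e1, e2, e3, e4]
    generalize a.val = x at *
    rw [hd, he, hd]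
    ring

end Pool.Agent.P.MP_d5661c_co
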