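import Mathlib
import Pool.Agent.P.MP_d5661c_co.Core

namespace Pool.Agent.P.MP_d5661c_co

open Polynomial Finset

variable (p : ℕ) [hp : Fact p.Prime]

lemma gn_pow_sub_one (c : ℝ) (hc : 0 < c) (w : ℚ[X]) (hw : gn p c hc w ≤ 1)
    (hw1 : gn p c hc (w - 1) ≤ c) (k : ℕ) : gn p c hc (w ^ k - 1) ≤ c := by
  induction k with
  | zero => simpa using hc.le
  | succ k ih =>
    have e : w ^ (k + 1) - 1 = w * (w ^ k - 1) + (w - 1) := by ring
    rw [e]
    refine na_add_le _ (gn_na p c hc) ?_ hw1
    rw [map_mul]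
    calc _ ≤ 1 * c := mul_le_mul hw ih ((gn p c hc).nonneg _) zero_le_one
      _ = c := one_mul _

/-- A square difference matrix of index `lam` prime to `p` over the cyclic group of order
`p ^ (b + 2)`, `p` odd, has even size. -/
theorem even_card_of_cyclic (hp2 : p ≠ 2) (b lam q : ℕ) (hq : q = p ^ (b + 2)) (hlam : ¬ p ∣ lam)
    {ι : Type*} [Fintype ι] [DecidableEq ι] (hn : Fintype.card ι = lam * q)
    (h : ι → ι → ZMod q)
    (hh : ∀ i i', i ≠ i' → ∀ z, #{j | h i j - h i' j = z} = lam) :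
    Even (Fintype.card ι) := by
  have hpp := hp.out
  set m := p ^ (b + 1) with hmdef
  have : NeZero q := ⟨hq ▸ pow_ne_zero _ hpp.ne_zero⟩
  have hm0 : m ≠ 0 := pow_ne_zero _ hpp.ne_zero
  have hp1 : (1 : ℝ) < p := by exact_mod_cast hpp.one_lt
  have hpi : (0 : ℝ) < (p : ℝ)⁻¹ := by positivity
  have hpi1 : (p : ℝ)⁻¹ < 1 := inv_lt_one_of_one_lt₀ hp1
  set c : ℝ := ((p : ℝ)⁻¹) ^ ((m : ℝ)⁻¹) with hcdef
  have hc : 0 < c := Real.rpow_pos_of_pos hpi _
  have hc1 : c < 1 := Real.rpow_lt_one hpi.le hpi1 (by positivity)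
  have hm : c ^ m = (p : ℝ)⁻¹ := Real.rpow_inv_natCast_pow hpi.le hm0
  set ν := gn p c hc with hν
  have hna : IsNonarchimedean ν := gn_na p c hc
  set u : ℚ[X] := 1 + X with hu
  set w : ℚ[X] := 1 - X with hw
  have hX : ν X = c := gn_X p c hc
  have hνu : ν u ≤ 1 := na_add_le ν hna (by simp) (by rw [hX]; exact hc1.le)
  have hνw : ν w ≤ 1 := na_sub_le ν hna (by simp) (by rw [hX]; exact hc1.le)
  have hνup : ∀ k, ν (u ^ k) ≤ 1 := fun k => by
    rw [map_pow]; exact pow_le_one₀ (ν.nonneg _) hνu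
  have hνwp : ∀ k, ν (w ^ k) ≤ 1 := fun k => by
    rw [map_pow]; exact pow_le_one₀ (ν.nonneg _) hνw
  have hdiff : ν (u ^ q - w ^ q) = c ^ (2 * m) := hq ▸ gn_diff p hp2 b c hc hc1.le hm
  set N : ℚ[X] := ∑ i ∈ range q, u ^ i * w ^ (q - 1 - i) with hN
  have hNmul : N * (u - w) = u ^ q - w ^ q := geom_sum₂_mul u w q
  have h2 : padicNorm p ((2 : ℕ) : ℚ) = 1 := by
    rw [padicNorm.nat_eq_one_iff]
    intro h
    exact hp2 ((Nat.prime_dvd_prime_iff_eq hpp Nat.prime_two).mp h)
  have huw : ν (u - w) = c := by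
    have e : u - w = ((2 : ℕ) : ℚ[X]) * X := by rw [hu, hw]; push_cast; ring
    rw [e, map_mul, hX, hν, gn_natCast, h2]; simp
  set r : ℝ := c ^ (2 * m - 1) with hr
  have hcr : c * r = c ^ (2 * m) := by
    rw [hr, ← pow_succ']; congr 1; omega
  have hr0 : 0 < r := pow_pos hc _
  have hνN : ν N = r := by
    have := congrArg ν hNmul
    rw [map_mul, huw, hdiff, ← hcr, mul_comm] at this
    exact mul_left_cancel₀ hc.ne' this
  have hνlam : ν (lam : ℚ[X]) = 1 := by
    rw [hν, gn_natCast, (padicNorm.nat_eq_one_iff lam).mpr hlam]; simp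
  have hνn : ν (Fintype.card ι : ℚ[X]) ≤ c * r := by
    rw [hν, gn_natCast, hcr, mul_comm 2 m, pow_mul, hm]
    refine padicNorm_nat_le_of_dvd p 2 _ ?_
    rw [hn, hq]
    exact Dvd.dvd.mul_left (pow_dvd_pow p (by omega)) _
  have hνn1 : ν (1 - (Fintype.card ι : ℚ[X])) = 1 := by
    have : ν ((1 - (Fintype.card ι : ℚ[X])) - 1) < ν 1 := by
      simp only [sub_sub_cancel_left, map_neg_eq_map, map_one]
      refine hνn.trans_lt ?_
      rw [hcr]
      exact pow_lt_one₀ hc.le hc1 (by omega)
    simpa using na_eq_of_sub_lt ν hna this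
  -- the matrices
  set σ : ℚ[X] →+* ℚ[X] := compRingHom (-X) with hσ
  have hσu : σ u = w := by simp [hσ, hu, hw, sub_eq_add_neg]
  have hσw : σ w = u := by simp [hσ, hu, hw]
  set M : Matrix ι ι ℚ[X] := Matrix.of fun i j => u ^ (h i j).val * w ^ (q - (h i j).val) with hM
  set A : Matrix ι ι ℚ[X] := M * (M.map σ).transpose with hA
  set B : Matrix ι ι ℚ[X] := (-(lam * N)) •
    (1 + Matrix.replicateCol Unit (fun _ => (-1 : ℚ[X])) *
      Matrix.replicateRow Unit (fun _ => (1 : ℚ[X]))) with hB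
  have hBdet : ν B.det = r ^ Fintype.card ι := by
    rw [hB, Matrix.det_smul, Matrix.det_one_add_replicateCol_mul_replicateRow, map_mul, map_pow,
      map_neg_eq_map, map_mul, hνlam, hνN, one_mul]
    have e : (1 : ℚ[X]) + (fun _ : ι => (1 : ℚ[X])) ⬝ᵥ (fun _ => (-1 : ℚ[X]))
        = 1 - (Fintype.card ι : ℚ[X]) := by
      simp [dotProduct, sub_eq_add_neg]
    rw [e, hνn1, mul_one]
  have hBdiag : ∀ i, B i i = 0 := by
    intro i; simp [hB, Matrix.mul_apply]
  have hBoff : ∀ i j, i ≠ j → B i j = lam * N := by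
    intro i j hij; simp [hB, Matrix.mul_apply, Matrix.one_apply_ne hij]
  have hBle : ∀ i j, ν (B i j) ≤ r := by
    intro i j
    by_cases hij : i = j
    · rw [hij, hBdiag]; simpa using hr0.le
    · rw [hBoff i j hij, map_mul, hνlam, hνN, one_mul]
  have hAapp : ∀ i i', A i i' = ∑ j, u ^ (h i j).val * w ^ (q - (h i j).val) *
      (w ^ (h i' j).val * u ^ (q - (h i' j).val)) := by
    intro i i'
    simp [hA, hM, Matrix.mul_apply, hσu, hσw]
  have hAB : ∀ i j, ν (A i j - B i j) ≤ c * r := by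
    intro i i'
    by_cases hii : i = i'
    · subst hii
      rw [hBdiag, sub_zero, hAapp]
      have e : ∀ j, u ^ (h i j).val * w ^ (q - (h i j).val) *
          (w ^ (h i j).val * u ^ (q - (h i j).val)) = u ^ q * w ^ q := by
        intro j
        have := (ZMod.val_lt (h i j)).le
        calc _ = u ^ ((h i j).val + (q - (h i j).val)) * w ^ ((h i j).val + (q - (h i j).val)) := by
              ring
          _ = _ := by rw [Nat.add_sub_cancel' this]
      simp only [e, sum_const, card_univ, nsmul_eq_mul]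
      rw [map_mul, map_mul]
      calc _ ≤ (c * r) * (1 * 1) := mul_le_mul hνn
            (mul_le_mul (hνup q) (hνwp q) (ν.nonneg _) zero_le_one)
            (mul_nonneg (ν.nonneg _) (ν.nonneg _)) (by positivity)
        _ = _ := by ring
    · rw [hBoff i i' hii, hAapp]
      choose e he0 he using fun j => term_eq u w q (h i j) (h i' j)
      simp only [he]
      rw [sum_add_distrib, ← mul_sum]
      have hs : ∑ j, u ^ (h i j - h i' j).val * w ^ (q - (h i j - h i' j).val) = lam * (w * N) := by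
        rw [← Finset.sum_fiberwise (s := univ) (g := fun j => h i j - h i' j)]
        have e1 : ∀ z : ZMod q, ∑ j ∈ univ.filter (fun j => h i j - h i' j = z),
            u ^ (h i j - h i' j).val * w ^ (q - (h i j - h i' j).val)
            = lam * (u ^ z.val * w ^ (q - z.val)) := by
          intro z
          rw [Finset.sum_congr rfl (g := fun _ => u ^ z.val * w ^ (q - z.val))
            (fun j hj => by rw [(mem_filter.mp hj).2]), sum_const, hh i i' hii z, nsmul_eq_mul]
        simp only [e1]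
        rw [← mul_sum, sum_zmod_val q (fun k => u ^ k * w ^ (q - k)), hN, mul_sum (a := w)]
        congr 1
        refine sum_congr rfl fun k hk => ?_
        have : q - k = (q - 1 - k) + 1 := by have := mem_range.mp hk; omega
        rw [this]; ring
      rw [hs]
      have e2 : ∀ S : ℚ[X], w ^ q * (lam * (w * N)) + S - lam * N
          = lam * N * (w ^ (q + 1) - 1) + S := by intro S; ring
      rw [e2]
      refine na_add_le ν hna ?_ (na_sum_le ν hna _ _ _ (by positivity) fun j _ => ?_)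
      · rw [map_mul, map_mul, hνlam, hνN, one_mul, mul_comm]
        refine mul_le_mul_of_nonneg_right ?_ hr0.le
        refine gn_pow_sub_one p c hc w hνw ?_ _
        have : w - 1 = -X := by rw [hw]; ring
        rw [this, map_neg_eq_map]; exact hX.le
      · rcases he0 j with h0 | h0
        · rw [h0]; simpa using (by positivity : 0 ≤ c * r)
        · rw [h0, one_mul, map_mul, map_mul, hdiff, hcr]
          calc _ ≤ c ^ (2 * m) * (1 * 1) := mul_le_mul_of_nonneg_left
                (mul_le_mul (hνup _) (hνwp _) (ν.nonneg _) zero_le_one) (by positivity)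
            _ = _ := by ring
  have hAle : ∀ i j, ν (A i j) ≤ r := by
    intro i j
    have e : A i j = (A i j - B i j) + B i j := by ring
    rw [e]
    refine na_add_le ν hna ((hAB i j).trans ?_) (hBle i j)
    exact mul_le_of_le_one_left hr0.le hc1.le
  have hdet := na_det_sub_det ν hna A B r c hr0.le hc.le hAle hBle hAB
  have hAdet : ν A.det = r ^ Fintype.card ι := by
    rw [← hBdet]
    refine na_eq_of_sub_lt ν hna (hdet.trans_lt ?_)
    rw [hBdet]
    exact mul_lt_of_lt_one_left (pow_pos hr0 _) hc1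
  have hAdet2 : A.det = M.det * σ M.det := by
    rw [hA, Matrix.det_mul, Matrix.det_transpose, RingHom.map_det]; rfl
  have hσν : ν (σ M.det) = ν M.det := gn_comp_neg_X p c hc _
  rw [hAdet2, map_mul, hσν] at hAdet
  have hne : ν M.det ≠ 0 := by
    intro h0
    rw [h0, mul_zero] at hAdet
    exact (pow_pos hr0 _).ne hAdet
  obtain ⟨k, hk⟩ := gn_value p c hc m hm M.det hne
  rw [← hν] at hk
  rw [hk, hr, ← pow_mul, ← zpow_add₀ hc.ne', ← zpow_natCast] at hAdet
  have hkk := zpow_right_injective₀ hc hc1.ne hAdet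
  have hev : Even (((2 * m - 1) * Fintype.card ι : ℕ) : ℤ) := ⟨k, hkk.symm⟩
  have hev' : Even ((2 * m - 1) * Fintype.card ι) := by exact_mod_cast hev
  rcases Nat.even_mul.mp hev' with h1 | h1
  · exfalso
    obtain ⟨t, ht⟩ := h1
    omega
  · exact h1

end Pool.Agent.P.MP_d5661c_co
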