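import Mathlib

/-! Operators attached to a matrix over a finite group, acting on functions on `ι × G`. -/

set_option autoImplicit false

namespace Pool.Agent.P.MP_d5661c_co.Syl

open Finset

variable {ι G : Type*} [Fintype ι] [Fintype G] [Group G]

section defs

variable (R : Type*) [CommRing R]

/-- The adjoint of the developed matrix. -/
def Hs (h : ι → ι → G) : Module.End R (ι × G → R) where
  toFun x := fun q => ∑ i, x (i, h i q.1 * q.2)
  map_add' x y := by ext q; simp [sum_add_distrib]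
  map_smul' c x := by ext q; simp [mul_sum]

/-- The developed matrix. -/
def Hm (h : ι → ι → G) : Module.End R (ι × G → R) where
  toFun z := fun q => ∑ j, z (j, (h q.1 j)⁻¹ * q.2)
  map_add' x y := by ext q; simp [sum_add_distrib]
  map_smul' c x := by ext q; simp [mul_sum]

/-- Right translation. -/
def rt (ι : Type*) (c : G) : Module.End R (ι × G → R) where
  toFun f := fun q => f (q.1, q.2 * c)
  map_add' _ _ := rfl
  map_smul' _ _ := rfl

/-- Sum over the group. -/
def aug (ι G : Type*) [Fintype G] : (ι × G → R) →ₗ[R] (ι → R) where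
  toFun x := fun i => ∑ y, x (i, y)
  map_add' x y := by ext q; simp [sum_add_distrib]
  map_smul' c x := by ext q; simp [mul_sum]

end defs

variable {R : Type*} [CommRing R]

omit [Fintype G] in
theorem Hs_apply (h : ι → ι → G) (x : ι × G → R) (q : ι × G) :
    Hs R h x q = ∑ i, x (i, h i q.1 * q.2) := rfl

omit [Fintype G] in
theorem Hm_apply (h : ι → ι → G) (x : ι × G → R) (q : ι × G) :
    Hm R h x q = ∑ j, x (j, (h q.1 j)⁻¹ * q.2) := rfl

omit [Fintype ι] [Fintype G] in
theorem rt_apply (c : G) (x : ι × G → R) (q : ι × G) : rt R ι c x q = x (q.1, q.2 * c) := rfl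

omit [Fintype ι] [Group G] in
theorem aug_apply (x : ι × G → R) (i : ι) : aug R ι G x i = ∑ y, x (i, y) := rfl

omit [Fintype ι] [Fintype G] in
theorem rt_pow (c : G) (k : ℕ) : rt R ι c ^ k = rt R ι (c ^ k) := by
  induction k with
  | zero => ext x q; simp [rt_apply]
  | succ k ih =>
    rw [pow_succ, ih]
    ext x q
    simp [rt_apply, pow_succ, mul_assoc]

omit [Fintype G] in
theorem Hs_comm (h : ι → ι → G) (c : G) : Commute (Hs R h) (rt R ι c) := by
  ext x q
  simp [Hs_apply, rt_apply, mul_assoc]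

omit [Fintype G] in
theorem Hm_comm (h : ι → ι → G) (c : G) : Commute (Hm R h) (rt R ι c) := by
  ext x q
  simp [Hm_apply, rt_apply, mul_assoc]

omit [Fintype ι] in
theorem aug_rt (c : G) (x : ι × G → R) : aug R ι G (rt R ι c x) = aug R ι G x := by
  ext i
  simp only [aug_apply, rt_apply]
  exact Fintype.sum_equiv (Equiv.mulRight c) _ _ fun y => rfl

theorem aug_Hs (h : ι → ι → G) (x : ι × G → R) (j : ι) :
    aug R ι G (Hs R h x) j = ∑ i, aug R ι G x i := by
  simp only [aug_apply, Hs_apply]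
  rw [sum_comm]
  refine sum_congr rfl fun i _ => ?_
  exact Fintype.sum_equiv (Equiv.mulLeft (h i j)) _ _ fun y => rfl

theorem adj_H (h : ι → ι → G) (x z : ι × G → R) : Hs R h x ⬝ᵥ z = x ⬝ᵥ Hm R h z := by
  simp only [dotProduct, Hs_apply, Hm_apply, Fintype.sum_prod_type, sum_mul, mul_sum]
  rw [sum_comm]
  have e1 : ∀ y : G, ∑ j, ∑ i, x (i, h i j * y) * z (j, y)
      = ∑ i, ∑ j, x (i, h i j * y) * z (j, y) := fun y => sum_comm
  simp only [e1]
  rw [sum_comm]
  refine sum_congr rfl fun i _ => ?_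
  rw [sum_comm, sum_comm (s := (univ : Finset G))]
  refine sum_congr rfl fun j _ => ?_
  exact Fintype.sum_equiv (Equiv.mulLeft (h i j)) _ _ fun y => by simp

theorem adj_rt (c : G) (x z : ι × G → R) : rt R ι c⁻¹ x ⬝ᵥ z = x ⬝ᵥ rt R ι c z := by
  simp only [dotProduct, rt_apply, Fintype.sum_prod_type]
  refine sum_congr rfl fun i _ => ?_
  exact Fintype.sum_equiv (Equiv.mulRight c⁻¹) _ _ fun y => by simp

theorem Hm_Hs [DecidableEq ι] [DecidableEq G] (h : ι → ι → G) (μ : ℕ)
    (hh : ∀ i i', i ≠ i' → ∀ c, #{j | h i j * (h i' j)⁻¹ = c} = μ) (x : ι × G → R) (q : ι × G) :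
    Hm R h (Hs R h x) q = (Fintype.card ι : R) * x q
      + (μ : R) * (∑ i, aug R ι G x i - aug R ι G x q.1) := by
  simp only [Hm_apply, Hs_apply]
  rw [sum_comm, ← add_sum_erase _ _ (mem_univ q.1),
    ← add_sum_erase univ (fun i => aug R ι G x i) (mem_univ q.1), add_sub_cancel_left, mul_sum]
  congr 1
  · simp
  · refine sum_congr rfl fun i hi => ?_
    have hi' : i ≠ q.1 := ne_of_mem_erase hi
    have e1 : ∑ j, x (i, h i j * ((h q.1 j)⁻¹ * q.2))
        = ∑ c, ∑ j ∈ univ.filter (fun j => h i j * (h q.1 j)⁻¹ = c), x (i, c * q.2) := by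
      rw [← sum_fiberwise (s := univ) (g := fun j => h i j * (h q.1 j)⁻¹)]
      refine sum_congr rfl fun c _ => sum_congr rfl fun j hj => ?_
      rw [← (mem_filter.mp hj).2, mul_assoc]
    rw [e1]
    simp only [sum_const, hh i q.1 hi', nsmul_eq_mul]
    rw [← mul_sum, aug_apply]
    congr 1
    exact Fintype.sum_equiv (Equiv.mulRight q.2) _ _ fun y => rfl

/-- The dual relation on functions with zero sums, over the rationals. -/
theorem Hs_Hm_rat [DecidableEq ι] [DecidableEq G] [Nonempty ι] (h : ι → ι → G) (μ : ℕ)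
    (hh : ∀ i i', i ≠ i' → ∀ c, #{j | h i j * (h i' j)⁻¹ = c} = μ) (z : ι × G → ℚ)
    (hz : aug ℚ ι G z = 0) : Hs ℚ h (Hm ℚ h z) = (Fintype.card ι : ℚ) • z := by
  have hmap : ∀ x ∈ LinearMap.ker (aug ℚ ι G), Hs ℚ h x ∈ LinearMap.ker (aug ℚ ι G) := by
    intro x hx
    rw [LinearMap.mem_ker] at hx ⊢
    ext j
    rw [aug_Hs, hx]
    simp
  have key : ∀ x, aug ℚ ι G x = 0 → Hm ℚ h (Hs ℚ h x) = (Fintype.card ι : ℚ) • x := by
    intro x hx
    ext q
    rw [Hm_Hs h μ hh, hx]
    simp
  have hn : (Fintype.card ι : ℚ) ≠ 0 := by exact_mod_cast Fintype.card_ne_zero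
  have hinj : Function.Injective ((Hs ℚ h).restrict hmap) := by
    rw [injective_iff_map_eq_zero]
    intro x hx
    have h1 : Hs ℚ h x = 0 := congrArg Subtype.val hx
    have h2 := key x x.2
    rw [h1, map_zero] at h2
    exact Subtype.ext ((smul_eq_zero.mp h2.symm).resolve_left hn)
  obtain ⟨x, hx⟩ := LinearMap.injective_iff_surjective.mp hinj ⟨z, hz⟩
  have h1 : Hs ℚ h x = z := congrArg Subtype.val hx
  rw [← h1, key x x.2, map_smul]

/-- The dual relation on functions with zero sums, over the integers. -/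
theorem Hs_Hm_int [DecidableEq ι] [DecidableEq G] [Nonempty ι] (h : ι → ι → G) (μ : ℕ)
    (hh : ∀ i i', i ≠ i' → ∀ c, #{j | h i j * (h i' j)⁻¹ = c} = μ) (z : ι × G → ℤ)
    (hz : aug ℤ ι G z = 0) : Hs ℤ h (Hm ℤ h z) = (Fintype.card ι : ℤ) • z := by
  have h1 := Hs_Hm_rat h μ hh (fun q => (z q : ℚ)) (by
    ext i
    have := congrFun hz i
    simp only [aug_apply, Pi.zero_apply] at this ⊢
    exact_mod_cast this)
  ext q
  have h2 := congrFun h1 q
  simp only [Hs_apply, Hm_apply, Pi.smul_apply, smul_eq_mul] at h2 ⊢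
  exact_mod_cast h2

end Pool.Agent.P.MP_d5661c_co.Syl
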