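import Mathlib
import Pool.Agent.P.MP_d5661c_co.Cyclic

namespace Pool.Agent.P.MP_d5661c_co

open Finset

/-- The case `p = 2` (Drake, Hall and Paige): three rows already force an even index. -/
theorem even_index_of_two (b lam q : ℕ) (hq : q = 2 ^ (b + 1))
    {ι : Type*} [Fintype ι] [DecidableEq ι] (hn : 2 < Fintype.card ι)
    (h : ι → ι → ZMod q)
    (hh : ∀ i i', i ≠ i' → ∀ z, #{j | h i j - h i' j = z} = lam) :
    Even lam := by
  have : NeZero q := ⟨hq ▸ pow_ne_zero _ two_ne_zero⟩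
  obtain ⟨a, a', a'', h1, h2, h3⟩ := Fintype.two_lt_card_iff.mp hn
  have key : ∀ i i', i ≠ i' → ∑ j, (h i j - h i' j) = lam * ∑ z : ZMod q, z := by
    intro i i' hii
    rw [← Finset.sum_fiberwise (s := univ) (g := fun j => h i j - h i' j), mul_sum]
    refine sum_congr rfl fun z _ => ?_
    rw [Finset.sum_congr rfl (g := fun _ => z) (fun j hj => (mem_filter.mp hj).2), sum_const,
      hh i i' hii z, nsmul_eq_mul]
  have hsum : ∑ j, (h a j - h a'' j) = ∑ j, (h a j - h a' j) + ∑ j, (h a' j - h a'' j) := by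
    rw [← sum_add_distrib]
    exact sum_congr rfl fun j _ => by ring
  rw [key a a' h1, key a a'' h2, key a' a'' h3] at hsum
  have h0 : (lam : ZMod q) * ∑ z : ZMod q, z = 0 := by linear_combination -hsum
  have hT : ∑ z : ZMod q, z = ((∑ i ∈ range q, i : ℕ) : ZMod q) := by
    rw [Nat.cast_sum, ← sum_zmod_val q (fun i => (i : ZMod q))]
    simp
  rw [hT, ← Nat.cast_mul, ZMod.natCast_eq_zero_iff] at h0
  have hS := Finset.sum_range_id_mul_two q
  have hS' : ∑ i ∈ range q, i = 2 ^ b * (q - 1) := by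
    have : (∑ i ∈ range q, i) * 2 = (2 ^ b * (q - 1)) * 2 := by
      rw [hS]; conv_lhs => rw [hq, pow_succ]
      rw [← pow_succ, ← hq, hq, pow_succ]; ring
    omega
  rw [hS'] at h0
  have h4 : 2 ^ b * 2 ∣ 2 ^ b * (lam * (q - 1)) := by
    rw [← pow_succ, ← hq]
    convert h0 using 1; ring
  have h5 : 2 ∣ lam * (q - 1) := Nat.dvd_of_mul_dvd_mul_left (by positivity) h4
  rcases (Nat.prime_two.dvd_mul).mp h5 with h6 | h6
  · exact even_iff_two_dvd.mpr h6
  · exfalso
    have h7 : 2 ∣ q := hq ▸ dvd_pow_self 2 (by omega)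
    have h8 : 0 < q := Nat.pos_of_ne_zero (NeZero.ne q)
    omega

theorem two_mul_dvd (G : Type*) [Group G] [Finite G] (μ n : ℕ) (hn : n = μ * Nat.card G)
    (H : Fin n → Fin n → G)
    (hH : ∀ i i', i ≠ i' → ∀ g : G, Nat.card {j // H i j * (H i' j)⁻¹ = g} = μ)
    (p b : ℕ) (hp : p.Prime) (hb : 2 ≤ b)
    (φ : G →* Multiplicative (ZMod (p ^ b))) (hφ : Function.Surjective φ)
    (hmax : ¬ p ^ (b + 1) ∣ n) : 2 * p ^ b ∣ n := by
  classical
  obtain ⟨b, rfl⟩ := Nat.exists_eq_add_of_le' hb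
  have : Fact p.Prime := ⟨hp⟩
  have : NeZero (p ^ (b + 2)) := ⟨pow_ne_zero _ hp.ne_zero⟩
  have := Fintype.ofFinite G
  set κ := #{g : G | φ g = 1} with hκ
  have hfib : ∀ z, #{g : G | φ g = z} = κ := fun z =>
    MonoidHom.card_fiber_eq_of_mem_range φ (hφ z) (hφ 1)
  have hG : Nat.card G = κ * p ^ (b + 2) := by
    rw [Nat.card_eq_fintype_card, ← card_univ,
      card_eq_sum_card_fiberwise (f := φ) (t := univ) (fun _ _ => mem_univ _)]
    simp [hfib, mul_comm]
  have hn' : Fintype.card (Fin n) = (μ * κ) * p ^ (b + 2) := by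
    rw [Fintype.card_fin, hn, hG, mul_assoc]
  have hn'' : n = (μ * κ) * p ^ (b + 2) := by simpa using hn'
  have hlam : ¬ p ∣ μ * κ := by
    intro hd
    apply hmax
    rw [hn'', pow_succ']
    exact Nat.mul_dvd_mul_right hd _
  set h : Fin n → Fin n → ZMod (p ^ (b + 2)) := fun i j => Multiplicative.toAdd (φ (H i j)) with hdef
  have hh : ∀ i i', i ≠ i' → ∀ z, #{j | h i j - h i' j = z} = μ * κ := by
    intro i i' hii z
    rw [card_eq_sum_card_fiberwise (f := fun j => H i j * (H i' j)⁻¹)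
      (t := univ.filter fun g => φ g = Multiplicative.ofAdd z)]
    · rw [← hfib (Multiplicative.ofAdd z), mul_comm, ← smul_eq_mul, ← sum_const]
      refine sum_congr rfl fun g hg => ?_
      rw [← hH i i' hii g, Nat.card_eq_fintype_card, Fintype.card_subtype]
      congr 1
      ext j
      simp only [mem_filter, mem_univ, true_and, and_iff_right_iff_imp]
      intro hj
      have := (mem_filter.mp hg).2
      rw [← hj, map_mul, map_inv] at this
      have h2 := congrArg Multiplicative.toAdd this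
      simpa [hdef, sub_eq_add_neg] using h2
    · intro j hj
      have h1 := (mem_filter.mp (mem_coe.mp hj)).2
      simp only [coe_filter, mem_univ, true_and, Set.mem_ofPred_eq, map_mul, map_inv]
      rw [← h1]
      simp [hdef, sub_eq_add_neg]
  by_cases hp2 : p = 2
  · exfalso
    subst hp2
    have hpos : 0 < μ * κ := Nat.pos_of_ne_zero fun h0 => hlam (h0 ▸ dvd_zero 2)
    have h3 : 2 < Fintype.card (Fin n) := by
      rw [hn', pow_succ, pow_succ]
      have : 0 < 2 ^ b := by positivity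
      nlinarith
    exact hlam (even_iff_two_dvd.mp (even_index_of_two (b + 1) (μ * κ) _ rfl h3 h hh))
  · have hev := even_card_of_cyclic p hp2 b (μ * κ) _ rfl hlam hn' h hh
    rw [Fintype.card_fin] at hev
    refine Nat.Coprime.mul_dvd_of_dvd_of_dvd ?_ (even_iff_two_dvd.mp hev) ?_
    · exact Nat.Coprime.pow_right _ ((Nat.coprime_primes Nat.prime_two hp).mpr (Ne.symm hp2))
    · rw [hn'']; exact Dvd.intro_left _ rfl

end Pool.Agent.P.MP_d5661c_co
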