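import Mathlib
import Pool.Agent.P.MP_d5661c_co.SylOp
import Pool.Agent.P.MP_d5661c_co.Two

/-! A generalized Hadamard matrix over a group with a cyclic Sylow subgroup of order at least
`p ^ 2` has even size: a subspace of `F_p ^ n` is both isotropic and coisotropic. -/

set_option autoImplicit false

namespace Pool.Agent.P.MP_d5661c_co.Syl

open Finset

variable {ι G : Type*} [Fintype ι] [Fintype G] [Group G]

theorem sum_range_mul' {M : Type*} [AddCommMonoid M] (f : ℕ → M) (p k : ℕ) :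
    ∑ i ∈ range (p * k), f i = ∑ i ∈ range p, ∑ j ∈ range k, f (k * i + j) := by
  induction p with
  | zero => simp
  | succ p ih => rw [Nat.succ_mul, sum_range_add, ih, sum_range_succ, mul_comm p k]

/-- The indicator function of a transversal of the left cosets of a cyclic subgroup. -/
theorem exists_delta (g : G) (p k : ℕ) (hg : orderOf g = p * k) :
    ∃ δ : G → ℤ, ∀ y, ∑ i ∈ range p, ∑ j ∈ range k, δ (y * (g ^ k) ^ i * g ^ j) = 1 := by
  classical
  refine ⟨fun y => if y = Quotient.out (QuotientGroup.mk y : G ⧸ Subgroup.zpowers g) then 1 else 0,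
    fun y => ?_⟩
  set o := Quotient.out (QuotientGroup.mk y : G ⧸ Subgroup.zpowers g) with ho
  have h1 : ∀ i : ℕ, (QuotientGroup.mk (y * g ^ i) : G ⧸ Subgroup.zpowers g)
      = QuotientGroup.mk y := fun i =>
    QuotientGroup.mk_mul_of_mem y (Subgroup.npow_mem_zpowers g i)
  have h2 : y⁻¹ * o ∈ Subgroup.zpowers g := by
    rw [← QuotientGroup.eq, ho, QuotientGroup.out_eq']
  rw [mem_zpowers_iff_mem_range_orderOf, mem_image] at h2
  obtain ⟨i0, hi0, hi0'⟩ := h2
  have h3 := sum_range_mul' (fun i => if y * g ^ i = o then (1 : ℤ) else 0) p k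
  have h4 : ∑ i ∈ range (p * k), (if y * g ^ i = o then (1 : ℤ) else 0) = 1 := by
    rw [← hg, sum_eq_single i0]
    · rw [if_pos]
      rw [hi0']
      simp
    · intro i hi hne
      rw [if_neg]
      intro h
      apply hne
      refine pow_injOn_Iio_orderOf (x := g) (mem_range.mp hi) (mem_range.mp hi0) ?_
      simp only [hi0', ← h]
      simp
    · intro h
      exact absurd hi0 h
  refine Eq.trans ?_ (h3.symm.trans h4)
  refine sum_congr rfl fun i _ => sum_congr rfl fun j _ => ?_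
  rw [← pow_mul, mul_assoc, ← pow_add]
  simp only [h1, ho]

theorem sum_delta (g : G) (p k : ℕ) (δ : G → ℤ)
    (hδ : ∀ y, ∑ i ∈ range p, ∑ j ∈ range k, δ (y * (g ^ k) ^ i * g ^ j) = 1) :
    (p : ℤ) * k * ∑ y, δ y = Fintype.card G := by
  have h1 : ∑ y : G, ∑ i ∈ range p, ∑ j ∈ range k, δ (y * (g ^ k) ^ i * g ^ j)
      = Fintype.card G := by simp [hδ]
  rw [← h1, sum_comm]
  have h2 : ∀ i ∈ range p, ∑ y : G, ∑ j ∈ range k, δ (y * (g ^ k) ^ i * g ^ j)
      = k * ∑ y, δ y := by
    intro i _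
    rw [sum_comm]
    have h3 : ∀ j ∈ range k, ∑ y : G, δ (y * (g ^ k) ^ i * g ^ j) = ∑ y, δ y := fun j _ =>
      Fintype.sum_equiv (Equiv.mulRight ((g ^ k) ^ i * g ^ j)) _ _ fun y => by simp [mul_assoc]
    rw [sum_congr rfl h3]
    simp
  rw [sum_congr rfl h2]
  simp [mul_assoc]

/-- The integral step. -/
theorem coiso [DecidableEq ι] [DecidableEq G] [Nonempty ι] (h : ι → ι → G) (μ : ℕ)
    (hh : ∀ i i', i ≠ i' → ∀ c, #{j | h i j * (h i' j)⁻¹ = c} = μ) (g : G) (p k : ℕ)
    (hp : p ≠ 0) (hn : p * p ∣ Fintype.card ι) (δ : G → ℤ)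
    (hδ : ∀ y, ∑ i ∈ range p, ∑ j ∈ range k, δ (y * (g ^ k) ^ i * g ^ j) = 1)
    (u : ι × G → ℤ) (w : ι → ℤ)
    (hu : ∀ q, (p : ℤ) ∣ (rt ℤ ι (g ^ k) - 1) (Hm ℤ h u) q - w q.1) :
    ∃ x : ι × G → ℤ, (∀ i, aug ℤ ι G x i = -(∑ y, δ y) * w i) ∧
      ∀ q, (p : ℤ) ∣ (rt ℤ ι (g ^ k) - 1) (Hs ℤ h x) q := by
  set ρ : Module.End ℤ (ι × G → ℤ) := rt ℤ ι g with hρ
  set σ : Module.End ℤ (ι × G → ℤ) := rt ℤ ι (g ^ k) with hσ
  set θ : Module.End ℤ (ι × G → ℤ) := ∑ j ∈ range k, ρ ^ j with hθ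
  set κ : Module.End ℤ (ι × G → ℤ) := ∑ i ∈ range p, ∑ j ∈ range i, σ ^ j with hκ
  have hσρ : σ = ρ ^ k := (rt_pow g k).symm
  have e1 : (ρ - 1) * θ = σ - 1 := by rw [hσρ, hθ, mul_geom_sum]
  have e2 : θ * (ρ - 1) = σ - 1 := by rw [hσρ, hθ, geom_sum_mul]
  have e3 : (σ - 1) * κ = ∑ i ∈ range p, σ ^ i - (p : ℤ) • 1 := by
    rw [hκ, mul_sum]
    simp only [mul_geom_sum]
    rw [sum_sub_distrib]
    simp
  set dw : ι × G → ℤ := fun q => δ q.2 * w q.1 with hdw
  set ow : ι × G → ℤ := fun q => w q.1 with how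
  have e4 : (∑ i ∈ range p, σ ^ i) (θ dw) = ow := by
    ext q
    simp only [hσ, hθ, hρ, LinearMap.sum_apply, rt_pow, Finset.sum_apply, rt_apply, hdw, how,
      map_sum]
    have := hδ q.2
    rw [sum_comm] at this
    simp only [← sum_mul]
    rw [this, one_mul]
  have e5 : (σ - 1) (κ (θ dw)) = ow - (p : ℤ) • θ dw := by
    rw [← Module.End.mul_apply, e3, LinearMap.sub_apply, e4]
    simp
  set d : ι × G → ℤ := Hm ℤ h u - κ (θ dw) with hd
  have e6 : ∀ q, (p : ℤ) ∣ (σ - 1) d q := by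
    intro q
    have := hu q
    rw [hd, map_sub, e5]
    simp only [Pi.sub_apply, Pi.smul_apply, smul_eq_mul, how]
    have h1 : (σ - 1) (Hm ℤ h u) q - (w q.1 - p * θ dw q)
        = ((σ - 1) (Hm ℤ h u) q - w q.1) + p * θ dw q := by ring
    rw [h1]
    exact dvd_add this (dvd_mul_right _ _)
  set v : ι × G → ℤ := fun q => d q / p with hv
  have e7 : (σ - 1) d = (p : ℤ) • (σ - 1) v := by
    ext q
    have h1 := e6 q
    simp only [hσ, LinearMap.sub_apply, Module.End.one_apply, Pi.sub_apply, rt_apply,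
      Pi.smul_apply, smul_eq_mul, hv] at h1 ⊢
    have h2 : d q % p = d (q.1, q.2 * g ^ k) % p := Int.emod_eq_emod_iff_emod_sub_eq_zero.mpr
      (Int.emod_eq_zero_of_dvd (dvd_sub_comm.mp h1))
    have h3 := Int.mul_ediv_add_emod (d q) p
    have h4 := Int.mul_ediv_add_emod (d (q.1, q.2 * g ^ k)) p
    linear_combination h3 - h4 - h2
  set x : ι × G → ℤ := (ρ - 1) v - dw with hx
  have e8 : (σ - 1) (Hm ℤ h u) = ow + (p : ℤ) • θ x := by
    have h1 : Hm ℤ h u = d + κ (θ dw) := by rw [hd]; simp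
    rw [h1, map_add, e7, e5, hx, map_sub, ← Module.End.mul_apply θ, e2, smul_sub]
    abel
  refine ⟨x, fun i => ?_, fun q => ?_⟩
  · rw [hx, map_sub, LinearMap.sub_apply, map_sub, hρ, aug_rt]
    simp [aug_apply, hdw, sum_mul]
  · have c1 : Commute (Hs ℤ h) θ :=
      Commute.sum_right _ _ _ fun j _ => (Hs_comm h g).pow_right j
    have c2 : Commute (Hm ℤ h) (σ - 1) := (Hm_comm h _).sub_right (Commute.one_right _)
    have h1 : Hs ℤ h ((σ - 1) (Hm ℤ h u)) = (Fintype.card ι : ℤ) • (σ - 1) u := by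
      rw [← Module.End.mul_apply (σ - 1), ← c2.eq, Module.End.mul_apply]
      refine Hs_Hm_int h μ hh _ ?_
      rw [LinearMap.sub_apply, map_sub, hσ, aug_rt]
      simp
    have h2 : (ρ - 1) (Hs ℤ h ow) = 0 := by
      ext q
      simp [hρ, rt_apply, Hs_apply, how]
    have h3 : (ρ - 1) (Hs ℤ h (θ x)) = (σ - 1) (Hs ℤ h x) := by
      rw [← Module.End.mul_apply (Hs ℤ h), c1.eq, Module.End.mul_apply, ← Module.End.mul_apply,
        e1]
    have h4 := congrArg (fun z => (ρ - 1) (Hs ℤ h z)) e8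
    simp only [h1, map_add, map_smul, h2, h3, zero_add] at h4
    obtain ⟨c, hc⟩ := hn
    have h5 := congrFun h4 q
    simp only [Pi.smul_apply, smul_eq_mul, hc] at h5
    push_cast at h5
    refine ⟨c * (ρ - 1) ((σ - 1) u) q, ?_⟩
    have hp' : (p : ℤ) ≠ 0 := by exact_mod_cast hp
    apply mul_left_cancel₀ hp'
    linear_combination -h5

/-- Invariant functions are orthogonal modulo `p`. -/
theorem iso (g : G) (p k : ℕ) (δ : G → ℤ)
    (hδ : ∀ y, ∑ i ∈ range p, ∑ j ∈ range k, δ (y * (g ^ k) ^ i * g ^ j) = 1)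
    (F : G → ZMod p) (hF : ∀ y, F (y * g ^ k) = F y) : ∑ y, F y = 0 := by
  have h1 : ∀ i y, F (y * (g ^ k) ^ i) = F y := by
    intro i
    induction i with
    | zero => simp
    | succ i ih => intro y; rw [pow_succ, ← mul_assoc, hF, ih]
  have h2 : ∑ y, F y = ∑ y, ∑ i ∈ range p,
      F (y * (g ^ k) ^ i) * ∑ j ∈ range k, (δ (y * (g ^ k) ^ i * g ^ j) : ZMod p) := by
    refine sum_congr rfl fun y _ => ?_
    have h3 := congrArg (Int.cast : ℤ → ZMod p) (hδ y)
    push_cast at h3
    simp only [h1]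
    rw [← mul_sum, h3, mul_one]
  rw [h2, sum_comm]
  have h3 : ∀ i ∈ range p, ∑ y : G,
      F (y * (g ^ k) ^ i) * ∑ j ∈ range k, (δ (y * (g ^ k) ^ i * g ^ j) : ZMod p)
      = ∑ y : G, F y * ∑ j ∈ range k, (δ (y * g ^ j) : ZMod p) := fun i _ =>
    Fintype.sum_equiv (Equiv.mulRight ((g ^ k) ^ i)) _ _ fun y => rfl
  rw [sum_congr rfl h3]
  simp

/-- A subspace that contains its orthogonal complement and is isotropic for `J - I`. -/
theorem even_of_lagrangian {F : Type*} [Field F] [DecidableEq ι] (hn : (Fintype.card ι : F) = 0)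
    (K : Submodule F (ι → F)) (h1 : ∀ w ∈ K, ∀ w' ∈ K, (∑ i, w i) * ∑ i, w' i = w ⬝ᵥ w')
    (h2 : ∀ w, (∀ w' ∈ K, w' ⬝ᵥ w = 0) → w ∈ K) : Even (Fintype.card ι) := by
  let B : LinearMap.BilinForm F (ι → F) := Matrix.toBilin' (1 : Matrix ι ι F)
  have hB : ∀ x y, B x y = x ⬝ᵥ y := fun x y => by simp [B, Matrix.toBilin'_apply']
  have hBn : B.Nondegenerate := by
    refine Matrix.Nondegenerate.toBilin' (Matrix.nondegenerate_of_det_ne_zero ?_)
    simp
  have hfin := LinearMap.BilinForm.finrank_orthogonal hBn K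
  have hle : B.orthogonal K ≤ K := fun w hw => h2 w fun w' hw' => by
    rw [← hB]
    exact hw w' hw'
  let U : (ι → F) →ₗ[F] (ι → F) :=
    { toFun := fun w i => ∑ j, w j - w i
      map_add' := fun x y => by ext i; simp [sum_add_distrib]; ring
      map_smul' := fun c x => by ext i; simp [mul_sum, mul_sub] }
  have hU : Function.Injective U := by
    rw [injective_iff_map_eq_zero]
    intro w hw
    have h3 : ∀ i, w i = ∑ j, w j := fun i => (sub_eq_zero.mp (congrFun hw i)).symm
    have h4 : ∑ j, w j = 0 := by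
      rw [sum_congr rfl fun j _ => h3 j]
      simp [hn]
    ext i
    rw [h3, h4]
    rfl
  have hle2 : K.map U ≤ B.orthogonal K := by
    rintro _ ⟨w, hw, rfl⟩ w' hw'
    change B w' (U w) = 0
    rw [hB]
    have := h1 w' hw' w hw
    simp only [dotProduct, U, LinearMap.coe_mk, AddHom.coe_mk, mul_sub, sum_sub_distrib,
      ← sum_mul] at this ⊢
    rw [this, sub_self]
  have f1 := Submodule.finrank_mono hle
  have f2 := Submodule.finrank_mono hle2
  rw [← (K.equivMapOfInjective U hU).finrank_eq] at f2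
  have f3 := Submodule.finrank_le K
  rw [Module.finrank_fintype_fun_eq_card] at hfin f3
  exact ⟨Module.finrank F K, by omega⟩

theorem even_card [DecidableEq ι] [DecidableEq G] (h : ι → ι → G) (μ : ℕ)
    (hn : Fintype.card ι = μ * Fintype.card G)
    (hh : ∀ i i', i ≠ i' → ∀ c, #{j | h i j * (h i' j)⁻¹ = c} = μ) (p b : ℕ) (hp : p.Prime)
    (g : G) (hg : orderOf g = p ^ (b + 2)) (hmax : ¬ p ^ (b + 3) ∣ Fintype.card ι) :
    Even (Fintype.card ι) := by
  have := Fact.mk hp
  have : Nonempty ι := by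
    rw [← Fintype.card_pos_iff, Nat.pos_iff_ne_zero]
    intro h0
    exact hmax (h0 ▸ dvd_zero _)
  set k := p ^ (b + 1) with hk
  obtain ⟨δ, hδ⟩ := exists_delta g p k (by rw [hg, hk]; ring)
  have hm := sum_delta g p k δ hδ
  set m := ∑ y, δ y with hmdef
  have hcard : (Fintype.card ι : ℤ) = p ^ (b + 2) * (μ * m) := by
    rw [hn]
    push_cast
    rw [← hm, hk]
    push_cast
    ring
  have hunit : ¬ (p : ℤ) ∣ μ * m := by
    rintro ⟨c, hc⟩
    apply hmax
    have : ((p ^ (b + 3) : ℕ) : ℤ) ∣ (Fintype.card ι : ℤ) :=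
      ⟨c, by rw [hcard, hc]; push_cast; ring⟩
    exact_mod_cast this
  have hunit' : (μ : ZMod p) * (m : ZMod p) ≠ 0 := by
    intro h0
    apply hunit
    rw [← ZMod.intCast_zmod_eq_zero_iff_dvd]
    push_cast
    exact h0
  have hpp : p * p ∣ Fintype.card ι := by
    have : ((p * p : ℕ) : ℤ) ∣ (Fintype.card ι : ℤ) :=
      ⟨p ^ b * (μ * m), by rw [hcard]; push_cast; ring⟩
    exact_mod_cast this
  have hn0 : (Fintype.card ι : ZMod p) = 0 :=
    (ZMod.natCast_eq_zero_iff _ _).mpr ((dvd_mul_right p p).trans hpp)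
  let A : Module.End (ZMod p) (ι × G → ZMod p) := (rt (ZMod p) ι (g ^ k)⁻¹ - 1) * Hs (ZMod p) h
  have hA : ∀ x, A x = 0 ↔ ∀ q : ι × G,
      Hs (ZMod p) h x (q.1, q.2 * g ^ k) = Hs (ZMod p) h x q := by
    intro x
    constructor
    · intro hx q
      have := congrFun hx (q.1, q.2 * g ^ k)
      simp only [A, Module.End.mul_apply, LinearMap.sub_apply, Module.End.one_apply, Pi.sub_apply,
        rt_apply, mul_inv_cancel_right, Pi.zero_apply] at this
      exact (sub_eq_zero.mp this).symm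
    · intro hx
      ext q
      have := hx (q.1, q.2 * (g ^ k)⁻¹)
      simp only [A, Module.End.mul_apply, LinearMap.sub_apply, Module.End.one_apply, Pi.sub_apply,
        rt_apply, inv_mul_cancel_right, Pi.zero_apply] at this ⊢
      rw [this, sub_self]
  refine even_of_lagrangian hn0 ((LinearMap.ker A).map (aug (ZMod p) ι G)) ?_ ?_
  · rintro _ ⟨x, hx, rfl⟩ _ ⟨x', hx', rfl⟩
    have h1 := (hA x).mp hx
    have h2 := (hA x').mp hx'
    have h3 : Hs (ZMod p) h x ⬝ᵥ Hs (ZMod p) h x' = 0 := by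
      rw [dotProduct, Fintype.sum_prod_type]
      refine sum_eq_zero fun j _ => iso g p k δ hδ _ fun y => ?_
      rw [h1 (j, y), h2 (j, y)]
    rw [adj_H, dotProduct, Fintype.sum_prod_type] at h3
    simp only [Hm_Hs h μ hh, hn0, zero_mul, zero_add, ← sum_mul, ← aug_apply] at h3
    have h4 : (μ : ZMod p) * ((∑ i, aug (ZMod p) ι G x i) * ∑ i, aug (ZMod p) ι G x' i
        - aug (ZMod p) ι G x ⬝ᵥ aug (ZMod p) ι G x') = 0 := by
      rw [← h3, dotProduct, sum_mul, ← sum_sub_distrib, mul_sum]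
      exact sum_congr rfl fun i _ => by ring
    exact sub_eq_zero.mp ((mul_eq_zero.mp h4).resolve_left (left_ne_zero_of_mul hunit'))
  · intro w hw
    let f : Module.Dual (ZMod p) (ι × G → ZMod p) :=
      { toFun := fun x => aug (ZMod p) ι G x ⬝ᵥ w
        map_add' := fun x y => by simp [add_dotProduct]
        map_smul' := fun c x => by simp [smul_dotProduct] }
    have hf : f ∈ (LinearMap.ker A).dualAnnihilator := by
      rw [Submodule.mem_dualAnnihilator]
      intro x hx
      exact hw _ ⟨x, hx, rfl⟩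
    rw [← LinearMap.range_dualMap_eq_dualAnnihilator_ker] at hf
    obtain ⟨φ, hφ⟩ := hf
    set u : ι × G → ZMod p := fun q => φ (Pi.single q 1) with hu
    have hφu : ∀ z, φ z = z ⬝ᵥ u := by
      intro z
      rw [LinearMap.pi_apply_eq_sum_univ φ z, dotProduct]
      refine sum_congr rfl fun q _ => ?_
      rw [smul_eq_mul, hu]
      congr 2
      ext q'
      simp [Pi.single_apply, eq_comm]
    have h1 : ∀ q, (rt (ZMod p) ι (g ^ k) - 1) (Hm (ZMod p) h u) q = w q.1 := by
      intro q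
      have h2 := LinearMap.congr_fun hφ (Pi.single q 1)
      rw [LinearMap.dualMap_apply, hφu] at h2
      simp only [A, Module.End.mul_apply, LinearMap.sub_apply, Module.End.one_apply,
        sub_dotProduct] at h2
      rw [adj_rt, adj_H, adj_H, ← Module.End.mul_apply (Hm (ZMod p) h), (Hm_comm h _).eq] at h2
      simp only [single_dotProduct, one_mul, Module.End.mul_apply] at h2
      simp only [LinearMap.sub_apply, Module.End.one_apply, Pi.sub_apply]
      rw [h2]
      simp only [f, LinearMap.coe_mk, AddHom.coe_mk, dotProduct, aug_apply, sum_mul]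
      rw [← Fintype.sum_prod_type' (f := fun i y => (Pi.single q 1 : ι × G → ZMod p) (i, y) * w i)]
      rw [sum_eq_single q]
      · simp
      · intro q' _ hne
        simp [hne]
      · simp
    obtain ⟨x, hx1, hx2⟩ := coiso h μ hh g p k hp.ne_zero hpp δ hδ (fun q => (u q).val)
      (fun i => (w i).val) (by
        intro q
        rw [← ZMod.intCast_zmod_eq_zero_iff_dvd]
        have h2 := h1 q
        simp only [LinearMap.sub_apply, Module.End.one_apply, Pi.sub_apply, rt_apply,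
          Hm_apply] at h2 ⊢
        push_cast
        simp only [ZMod.natCast_val, ZMod.cast_id', id]
        rw [h2, sub_self])
    refine ⟨(-(m : ZMod p))⁻¹ • fun q => (x q : ZMod p), Submodule.smul_mem _ _ ?_, ?_⟩
    · refine (hA _).mpr fun q => ?_
      have h2 := hx2 q
      rw [← ZMod.intCast_zmod_eq_zero_iff_dvd] at h2
      simp only [LinearMap.sub_apply, Module.End.one_apply, Pi.sub_apply, rt_apply,
        Hs_apply] at h2 ⊢
      push_cast at h2
      exact sub_eq_zero.mp h2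
    · ext i
      have h2 := congrArg (Int.cast : ℤ → ZMod p) (hx1 i)
      simp only [aug_apply] at h2
      push_cast at h2
      simp only [ZMod.natCast_val, ZMod.cast_id', id] at h2
      rw [map_smul, Pi.smul_apply, aug_apply, h2, smul_eq_mul]
      have h3 : (-(m : ZMod p)) ≠ 0 := neg_ne_zero.mpr (right_ne_zero_of_mul hunit')
      have h4 : ∑ y, (δ y : ZMod p) = (m : ZMod p) := by rw [hmdef]; push_cast; rfl
      rw [h4, ← mul_assoc, inv_mul_cancel₀ h3, one_mul]

theorem two_mul_dvd' (G : Type*) [Group G] [Finite G] (μ n : ℕ) (hn : n = μ * Nat.card G)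
    (H : Fin n → Fin n → G)
    (hH : ∀ i i', i ≠ i' → ∀ g : G, Nat.card {j // H i j * (H i' j)⁻¹ = g} = μ)
    (p b : ℕ) (hp : p.Prime) (hb : 2 ≤ b) (g : G) (hg : orderOf g = p ^ b)
    (hmax : ¬ p ^ (b + 1) ∣ n) : 2 * p ^ b ∣ n := by
  classical
  have := Fact.mk hp
  have hdvd : p ^ b ∣ Nat.card G := hg ▸ orderOf_dvd_natCard g
  by_cases hp2 : p = 2
  · subst hp2
    have hfac : (Nat.card G).factorization 2 = b := by
      refine le_antisymm ?_ ((hp.pow_dvd_iff_le_factorization Nat.card_pos.ne').mp hdvd)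
      by_contra hlt
      apply hmax
      rw [hn]
      exact Dvd.dvd.mul_left
        ((hp.pow_dvd_iff_le_factorization Nat.card_pos.ne').mpr (by omega)) _
    let P : Sylow 2 G := Sylow.ofCard (Subgroup.zpowers g) (by rw [Nat.card_zpowers, hg, hfac])
    have hPc : Nat.card P = 2 ^ b := by
      change Nat.card (Subgroup.zpowers g) = _
      rw [Nat.card_zpowers, hg]
    have hcyc : IsCyclic P := by
      change IsCyclic (Subgroup.zpowers g)
      infer_instance
    have hmin : (Nat.card G).minFac = 2 :=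
      (Nat.minFac_eq_two_iff _).mpr ((dvd_pow_self 2 (by omega)).trans hdvd)
    have hc := hcyc.isComplement' hmin
    set τ := MonoidHom.transferSylow P (hcyc.normalizer_le_centralizer hmin) with hτ
    have hsurj : Function.Surjective τ := by
      rw [← MonoidHom.range_eq_top, ← Subgroup.card_eq_iff_eq_top, ← Subgroup.index_ker,
        hc.symm.index_eq_card]
    let e : P ≃* Multiplicative (ZMod (2 ^ b)) := mulEquivOfCyclicCardEq (by simp [hPc])
    exact two_mul_dvd G μ n hn H hH 2 b hp hb (e.toMonoidHom.comp τ) (e.surjective.comp hsurj) hmax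
  · have := Fintype.ofFinite G
    obtain ⟨c, rfl⟩ := Nat.exists_eq_add_of_le' hb
    have he := even_card H μ (by simp [hn]) (fun i i' hne c => by
      rw [← hH i i' hne c, Nat.card_eq_fintype_card, Fintype.card_subtype]) p c hp g hg
      (by simpa using hmax)
    rw [Fintype.card_fin] at he
    refine Nat.Coprime.mul_dvd_of_dvd_of_dvd ?_ he.two_dvd (hn ▸ hdvd.mul_left μ)
    exact ((Nat.coprime_primes Nat.prime_two hp).mpr (Ne.symm hp2)).pow_right _

end Pool.Agent.P.MP_d5661c_co.Syl
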